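import Mathlib
import Pool.Agent.Q102.AP.Larger
import Pool.Agent.Erdos456.Mertens

/-!
# The larger sieve for sets in few classes modulo the primes
-/

set_option autoImplicit false

namespace Pool.Agent.Q42.FD

open Finset Pool.Agent.Q102.AP

/-- `E` lies in at most `(p + r ^ 2) / r` classes modulo `p`, for `2 ^ r < p ≤ y` -/
def Sv (r y : ℕ) (E : Finset ℕ) : Prop := ∀ p : ℕ, p.Prime → 2 ^ r < p → p ≤ y →
  ∃ I : Finset ℕ, I ⊆ range p ∧ r * I.card ≤ p + r ^ 2 ∧ ∀ t ∈ E, t % p ∈ I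

theorem Sv.mono {r y z : ℕ} {E : Finset ℕ} (h : Sv r y E) (hz : z ≤ y) : Sv r z E :=
  fun p hp h1 h2 => h p hp h1 (h2.trans hz)

/-- lower bound of Mertens type -/
theorem mert_r (r : ℕ) : ∃ C₁ : ℝ, 0 ≤ C₁ ∧ ∀ y : ℕ, 1 ≤ y →
    r * Real.log y - C₁ ≤ ∑ p ∈ (range (y + 1)).filter (fun p => p.Prime ∧ 2 ^ r < p),
      Real.log p * (r / ((p : ℝ) + r ^ 2)) := by
  obtain ⟨C0, hC0⟩ := Pool.Agent.Erdos456.Mert.mertens_log
  obtain ⟨C2, hC20, hC2⟩ := Pool.Agent.Erdos456.Mert.sum_small_bound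
  obtain ⟨Z, hZ⟩ : ∃ Z : ℝ, Z = ∑ p ∈ (range (2 ^ r + 1)).filter Nat.Prime, Real.log p / p := ⟨_, rfl⟩
  have hZ0 : 0 ≤ Z := by
    rw [hZ]
    refine sum_nonneg fun p _ => div_nonneg (Real.log_natCast_nonneg p) (Nat.cast_nonneg p)
  refine ⟨r * (|C0| + Z + r ^ 2 * C2), by positivity, fun y hy => ?_⟩
  have h1 := (abs_le.1 (hC0 y hy)).1
  have h2 := hC2 y
  have h3 : ∑ p ∈ (Icc 1 y).filter Nat.Prime, Real.log p / p ≤
      ∑ p ∈ (range (y + 1)).filter (fun p => p.Prime ∧ 2 ^ r < p), Real.log p / p + Z := by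
    rw [hZ]
    have h4 : (Icc 1 y).filter Nat.Prime ⊆ (range (y + 1)).filter (fun p => p.Prime ∧ 2 ^ r < p) ∪
        (range (2 ^ r + 1)).filter Nat.Prime := by
      intro p hp
      rw [mem_filter, mem_Icc] at hp
      rw [mem_union, mem_filter, mem_filter, mem_range, mem_range]
      by_cases h : 2 ^ r < p
      · exact Or.inl ⟨by omega, hp.2, h⟩
      · exact Or.inr ⟨by omega, hp.2⟩
    have hnn : ∀ p : ℕ, 0 ≤ Real.log p / p := fun p =>
      div_nonneg (Real.log_natCast_nonneg p) (Nat.cast_nonneg p)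
    refine (sum_le_sum_of_subset_of_nonneg h4 fun p _ _ => hnn p).trans ?_
    rw [← sum_union_inter]
    have := sum_nonneg (s := (range (y + 1)).filter (fun p => p.Prime ∧ 2 ^ r < p) ∩
        (range (2 ^ r + 1)).filter Nat.Prime) (f := fun p : ℕ => Real.log p / p) fun p _ => hnn p
    linarith
  have h4 : ∑ p ∈ (range (y + 1)).filter (fun p => p.Prime ∧ 2 ^ r < p), Real.log p / p -
      r ^ 2 * C2 ≤ ∑ p ∈ (range (y + 1)).filter (fun p => p.Prime ∧ 2 ^ r < p),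
        Real.log p * (1 / ((p : ℝ) + r ^ 2)) := by
    have h5 : ∑ p ∈ (range (y + 1)).filter (fun p => p.Prime ∧ 2 ^ r < p),
        Real.log p / (p * ((p : ℝ) - 1)) ≤ C2 := by
      refine le_trans (sum_le_sum_of_subset_of_nonneg ?_ ?_) h2
      · intro p hp
        rw [mem_filter, mem_range] at hp
        rw [mem_filter, mem_Icc]
        exact ⟨⟨hp.2.1.pos, by omega⟩, hp.2.1⟩
      · intro p hp _
        rw [mem_filter] at hp
        have h6 : (1 : ℝ) < p := by exact_mod_cast hp.2.one_lt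
        exact div_nonneg (Real.log_natCast_nonneg p) (mul_nonneg (by linarith) (by linarith))
    have h6 : ∀ p ∈ (range (y + 1)).filter (fun p => p.Prime ∧ 2 ^ r < p),
        Real.log p / p - r ^ 2 * (Real.log p / (p * ((p : ℝ) - 1))) ≤
          Real.log p * (1 / ((p : ℝ) + r ^ 2)) := by
      intro p hp
      rw [mem_filter] at hp
      have h7 : (1 : ℝ) < p := by exact_mod_cast hp.2.1.one_lt
      have h8 := Real.log_natCast_nonneg p
      have h9 : (0 : ℝ) < (p : ℝ) + r ^ 2 := by positivity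
      have e1 : (1 : ℝ) / p - r ^ 2 * (1 / (p * ((p : ℝ) - 1))) ≤ 1 / ((p : ℝ) + r ^ 2) := by
        have e2 : (1 : ℝ) / p - 1 / ((p : ℝ) + r ^ 2) = r ^ 2 * (1 / (p * ((p : ℝ) + r ^ 2))) := by
          field_simp
          ring
        have e3 : (1 : ℝ) / (p * ((p : ℝ) + r ^ 2)) ≤ 1 / (p * ((p : ℝ) - 1)) := by
          apply one_div_le_one_div_of_le (mul_pos (by linarith) (by linarith))
          apply mul_le_mul_of_nonneg_left _ (by linarith)
          have : (0 : ℝ) ≤ (r : ℝ) ^ 2 := by positivity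
          linarith
        have e4 := mul_le_mul_of_nonneg_left e3 (show (0 : ℝ) ≤ (r : ℝ) ^ 2 by positivity)
        linarith
      calc Real.log p / p - r ^ 2 * (Real.log p / (p * ((p : ℝ) - 1))) =
          Real.log p * (1 / p - r ^ 2 * (1 / (p * ((p : ℝ) - 1)))) := by ring
        _ ≤ _ := mul_le_mul_of_nonneg_left e1 h8
    have h7 := sum_le_sum h6
    rw [sum_sub_distrib, ← mul_sum] at h7
    have h8 := mul_le_mul_of_nonneg_left h5 (show (0 : ℝ) ≤ (r : ℝ) ^ 2 by positivity)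
    linarith
  have h5 : ∑ p ∈ (range (y + 1)).filter (fun p => p.Prime ∧ 2 ^ r < p),
      Real.log p * (r / ((p : ℝ) + r ^ 2)) = r * ∑ p ∈ (range (y + 1)).filter
        (fun p => p.Prime ∧ 2 ^ r < p), Real.log p * (1 / ((p : ℝ) + r ^ 2)) := by
    rw [mul_sum]
    refine sum_congr rfl fun p _ => ?_
    ring
  rw [h5, ← mul_sub]
  refine mul_le_mul_of_nonneg_left ?_ (Nat.cast_nonneg r)
  have h6 := le_abs_self C0
  linarith

theorem pair_le {r y : ℕ} {E : Finset ℕ} (hE : Sv r y E) (p : ℕ) (hp : p.Prime) (h1 : 2 ^ r < p)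
    (h2 : p ≤ y) : (E.card : ℝ) ^ 2 * (r / ((p : ℝ) + r ^ 2)) ≤ PP E p := by
  obtain ⟨I, hI, hc, ht⟩ := hE p hp h1 h2
  have h3 : (E.card : ℝ) = ∑ c ∈ I, ((E.filter fun t => t % p = c).card : ℝ) := by
    have := card_eq_sum_card_fiberwise (s := E) (t := I) (f := fun t => t % p) (fun t h => ht t h)
    exact_mod_cast this
  have h4 : (E.card : ℝ) ^ 2 ≤ I.card * PP E p := by
    rw [h3]
    refine sq_sum_le_card_mul_sum_sq.trans ?_
    refine mul_le_mul_of_nonneg_left ?_ (Nat.cast_nonneg _)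
    refine le_trans ?_ (sum_sq_le E p hp.pos)
    exact sum_le_sum_of_subset_of_nonneg hI fun _ _ _ => sq_nonneg _
  have h5 : (r : ℝ) * I.card ≤ (p : ℝ) + r ^ 2 := by exact_mod_cast hc
  have hp0 : (0 : ℝ) < p := by exact_mod_cast hp.pos
  have h6 : (0 : ℝ) < (p : ℝ) + r ^ 2 := by positivity
  rw [mul_div_assoc', div_le_iff₀ h6]
  calc (E.card : ℝ) ^ 2 * r ≤ (I.card * PP E p) * r :=
        mul_le_mul_of_nonneg_right h4 (Nat.cast_nonneg _)
    _ = PP E p * (r * I.card) := by ring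
    _ ≤ PP E p * ((p : ℝ) + r ^ 2) := mul_le_mul_of_nonneg_left h5 (Nat.cast_nonneg _)

theorem larger_core {r y X : ℕ} {E : Finset ℕ} (hE : Sv r y E) (hX : ∀ t ∈ E, 1 ≤ t ∧ t ≤ X) :
    (E.card : ℝ) * (∑ p ∈ (range (y + 1)).filter (fun p => p.Prime ∧ 2 ^ r < p),
      Real.log p * (r / ((p : ℝ) + r ^ 2)) - Real.log X) ≤ Real.log 4 * y := by
  rcases Nat.eq_zero_or_pos E.card with h0 | h0
  · rw [h0, Nat.cast_zero, zero_mul]
    positivity
  have h1 := pair_sum (Q := y) E hX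
  have h2 : ∑ p ∈ (range (y + 1)).filter (fun p => p.Prime ∧ 2 ^ r < p),
      Real.log p * ((E.card : ℝ) ^ 2 * (r / ((p : ℝ) + r ^ 2))) ≤
      ∑ p ∈ (range (y + 1)).filter Nat.Prime, Real.log p * PP E p := by
    have h3 : ∑ p ∈ (range (y + 1)).filter (fun p => p.Prime ∧ 2 ^ r < p),
        Real.log p * ((E.card : ℝ) ^ 2 * (r / ((p : ℝ) + r ^ 2))) ≤
        ∑ p ∈ (range (y + 1)).filter (fun p => p.Prime ∧ 2 ^ r < p), Real.log p * PP E p := by
      refine sum_le_sum fun p hp => ?_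
      rw [mem_filter, mem_range] at hp
      exact mul_le_mul_of_nonneg_left (pair_le hE p hp.2.1 hp.2.2 (by omega))
        (Real.log_natCast_nonneg p)
    refine h3.trans (sum_le_sum_of_subset_of_nonneg ?_ fun p _ _ =>
      mul_nonneg (Real.log_natCast_nonneg p) (Nat.cast_nonneg _))
    intro p hp
    rw [mem_filter] at hp ⊢
    exact ⟨hp.1, hp.2.1⟩
  have h3 : ∑ p ∈ (range (y + 1)).filter (fun p => p.Prime ∧ 2 ^ r < p),
      Real.log p * ((E.card : ℝ) ^ 2 * (r / ((p : ℝ) + r ^ 2))) = (E.card : ℝ) ^ 2 *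
      ∑ p ∈ (range (y + 1)).filter (fun p => p.Prime ∧ 2 ^ r < p),
      Real.log p * (r / ((p : ℝ) + r ^ 2)) := by
    rw [mul_sum]
    refine sum_congr rfl fun p _ => ?_
    ring
  rw [h3] at h2
  have h4 : (0 : ℝ) < E.card := by exact_mod_cast h0
  have h5 := h2.trans h1
  refine le_of_mul_le_mul_left ?_ h4
  linarith

/-- **The larger sieve.** -/
theorem larger (r : ℕ) (hr : 1 ≤ r) : ∃ K : ℝ, 1 ≤ K ∧ ∀ (X y : ℕ) (E : Finset ℕ), 1 ≤ X →
    (∀ t ∈ E, 1 ≤ t ∧ t ≤ X) → Sv r y E → K * (X : ℝ) ^ (1 / (r : ℝ)) ≤ y →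
      (E.card : ℝ) ≤ K * (X : ℝ) ^ (1 / (r : ℝ)) := by
  obtain ⟨C₁, hC0, hC⟩ := mert_r r
  have hr0 : (0 : ℝ) < r := by exact_mod_cast hr
  obtain ⟨A, hA⟩ : ∃ A : ℝ, A = Real.exp ((C₁ + 1) / r) := ⟨_, rfl⟩
  have hA1 : 1 ≤ A := by
    rw [hA]
    exact Real.one_le_exp (by positivity)
  refine ⟨2 * (A + 1), by linarith, fun X y E hX hE hS hy => ?_⟩
  have hX1 : (1 : ℝ) ≤ X := by exact_mod_cast hX
  set R : ℝ := (X : ℝ) ^ (1 / (r : ℝ)) with hR
  have hR1 : 1 ≤ R := Real.one_le_rpow hX1 (by positivity)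
  set z : ℕ := ⌈A * R⌉₊ with hz
  have hz1 : A * R ≤ z := Nat.le_ceil _
  have hz2 : (z : ℝ) < A * R + 1 := Nat.ceil_lt_add_one (by positivity)
  have hzy : z ≤ y := by
    have : (z : ℝ) ≤ y := by
      refine hz2.le.trans (le_trans ?_ hy)
      nlinarith
    exact_mod_cast this
  have hzpos : 1 ≤ z := by
    have : (1 : ℝ) ≤ z := le_trans (by nlinarith) hz1
    exact_mod_cast this
  have h1 := larger_core (hS.mono hzy) hE
  have h2 := hC z hzpos
  have h3 : C₁ + 1 + Real.log X ≤ r * Real.log z := by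
    have h4 : Real.log (A * R) ≤ Real.log z := Real.log_le_log (by positivity) hz1
    rw [Real.log_mul (by positivity) (by positivity), hA, Real.log_exp, hR,
      Real.log_rpow (by linarith)] at h4
    have h5 := mul_le_mul_of_nonneg_left h4 hr0.le
    have h6 : (r : ℝ) * ((C₁ + 1) / r + 1 / r * Real.log X) = C₁ + 1 + Real.log X := by
      field_simp
    rw [h6] at h5
    exact h5
  have h4 : (E.card : ℝ) * 1 ≤ Real.log 4 * z := by
    refine le_trans (mul_le_mul_of_nonneg_left ?_ (Nat.cast_nonneg _)) h1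
    linarith
  have h5 : Real.log 4 ≤ 2 := by
    have : Real.log 4 = 2 * Real.log 2 := by
      rw [show (4 : ℝ) = 2 ^ 2 by norm_num, Real.log_pow]
      norm_num
    have := Real.log_two_lt_d9
    linarith
  rw [mul_one] at h4
  refine h4.trans ?_
  calc Real.log 4 * z ≤ 2 * z := mul_le_mul_of_nonneg_right h5 (Nat.cast_nonneg _)
    _ ≤ 2 * (A * R + 1) := by linarith
    _ ≤ 2 * (A + 1) * R := by nlinarith

end Pool.Agent.Q42.FD
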