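import Mathlib
import Pool.Agent.Q42.FD.Larger
import Pool.Agent.H174R3.D6.TaskLS
import Pool.Agent.H278R3.D6.ALS
import Pool.Agent.Q42.SF.Few

/-!
# The large sieve for sets in few classes modulo the primes
-/

set_option autoImplicit false

namespace Pool.Agent.Q42.FD

open Finset Filter Topology

/-- the primes in `(B, y]` -/
noncomputable def PB (B y : ℕ) : Finset ℕ := (range (y + 1)).filter (fun p => p.Prime ∧ B < p)

theorem many (B : ℕ) (η : ℝ) (h0 : 0 < η) (h1 : η ≤ 1) :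
    ∀ᶠ y : ℕ in atTop, (y : ℝ) ^ (1 - η) ≤ ((PB B y).card : ℝ) := by
  have e1 := Pool.Agent.Q42.SF.many_primes (η / 2) (by positivity) (by linarith)
  have e2 := tendsto_natCast_atTop_atTop.eventually
    ((tendsto_rpow_atTop (show 0 < η / 2 by positivity)).eventually_ge_atTop ((B : ℝ) + 2))
  filter_upwards [e1, e2, eventually_ge_atTop 1] with y g1 g2 g3
  have hy : (1 : ℝ) ≤ y := by exact_mod_cast g3
  have h2 : ((Pool.Agent.Q42.SF.PP y).card : ℝ) ≤ (PB B y).card + (B + 1) := by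
    have h3 : Pool.Agent.Q42.SF.PP y ⊆ PB B y ∪ range (B + 1) := by
      intro p hp
      rw [Pool.Agent.Q42.SF.PP, mem_filter] at hp
      rw [mem_union, PB, mem_filter, mem_range (n := B + 1)]
      by_cases h : B < p
      · exact Or.inl ⟨hp.1, hp.2.1, h⟩
      · exact Or.inr (by omega)
    have h4 := (card_le_card h3).trans (card_union_le _ _)
    rw [card_range] at h4
    exact_mod_cast h4
  have h3 : (y : ℝ) ^ (1 - η / 2) = (y : ℝ) ^ (η / 2) * (y : ℝ) ^ (1 - η) := by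
    rw [← Real.rpow_add (by linarith)]
    congr 1
    ring
  have h4 : 1 ≤ (y : ℝ) ^ (1 - η) := Real.one_le_rpow hy (by linarith)
  rw [h3] at g1
  nlinarith

/-- the large sieve bound with fixed parameters -/
theorem large_core {r y X k B : ℕ} {E : Finset ℕ} (hr : 2 ≤ r) (hE : Sv r y E)
    (hX : ∀ t ∈ E, 1 ≤ t ∧ t ≤ X) (hB1 : 2 ^ r ≤ B) (hB2 : 6 * r ≤ B) (hk : (y ^ k) ^ 2 ≤ X)
    (h2k : 2 * k ≤ (PB B y).card) :
    (E.card : ℝ) * ((PB B y).card : ℝ) ^ k ≤ 12 * X * (18 * k : ℝ) ^ k := by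
  classical
  set P := PB B y with hP
  have hPm : ∀ q ∈ P, q.Prime ∧ B < q ∧ q ≤ y := by
    intro q hq
    rw [hP, PB, mem_filter, mem_range] at hq
    exact ⟨hq.2.1, hq.2.2, by omega⟩
  have hI : ∀ q : ℕ, ∃ I : Finset ℕ, q ∈ P → I ⊆ range q ∧ r * I.card ≤ q + r ^ 2 ∧
      ∀ t ∈ E, t % q ∈ I := by
    intro q
    by_cases h : q ∈ P
    · obtain ⟨h1, h2, h3⟩ := hPm q h
      obtain ⟨I, hI⟩ := hE q h1 (by omega) h3
      exact ⟨I, fun _ => hI⟩
    · exact ⟨∅, fun h' => absurd h' h⟩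
  choose I hI using hI
  have hQX : ((y ^ k : ℕ) : ℝ) ^ 2 ≤ X := by exact_mod_cast hk
  have hfrac : ∀ q ∈ P, ((I q).card : ℝ) / q ≤ 2 / 3 := by
    intro q hq
    obtain ⟨h1, h2, h3⟩ := hPm q hq
    have hq0 : (0 : ℝ) < q := by exact_mod_cast h1.pos
    rw [div_le_div_iff₀ hq0 (by norm_num)]
    have h4 := (hI q hq).2.1
    have h5 : (r : ℝ) * (I q).card ≤ (q : ℝ) + r ^ 2 := by exact_mod_cast h4
    have h6 : 6 * (r : ℝ) ≤ q := by
      have : 6 * r ≤ q := by omega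
      exact_mod_cast this
    have hr2 : (2 : ℝ) ≤ r := by exact_mod_cast hr
    by_contra h7
    push Not at h7
    have h8 : (r : ℝ) * (2 * q) < r * ((I q).card * 3) := mul_lt_mul_of_pos_left h7 (by linarith)
    nlinarith
  have hls := Pool.Agent.H174R3.D6LS.taskLS X (y ^ k) P I (P.powersetCard k) (fun _ => 1)
    (fun q hq => (hPm q hq).1) (fun q hq => (hI q hq).1) (by
      intro s hs
      rw [mem_powersetCard] at hs
      refine ⟨hs.1, ?_⟩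
      calc ∏ q ∈ s, q ≤ ∏ _q ∈ s, y := prod_le_prod' fun q hq => (hPm q (hs.1 hq)).2.2
        _ = y ^ k := by rw [prod_const, hs.2])
  -- right hand side
  have hR : ∑ s ∈ P.powersetCard k, (1 : ℝ) ^ 2 * ∏ q ∈ s, ((I q).card : ℝ) / q ≤
      (P.card.choose k : ℝ) := by
    calc ∑ s ∈ P.powersetCard k, (1 : ℝ) ^ 2 * ∏ q ∈ s, ((I q).card : ℝ) / q
        ≤ ∑ _s ∈ P.powersetCard k, (1 : ℝ) := by
          refine sum_le_sum fun s hs => ?_
          rw [mem_powersetCard] at hs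
          rw [one_pow, one_mul]
          exact prod_le_one (fun q _ => by positivity) fun q hq =>
            (hfrac q (hs.1 hq)).trans (by norm_num)
      _ = _ := by rw [sum_const, card_powersetCard, nsmul_eq_mul, mul_one]
  -- left hand side
  have hin : ∀ t ∈ E, (P.card.choose k : ℝ) * (1 / 3) ^ k ≤
      ∑ s ∈ P.powersetCard k, (1 : ℝ) * ∏ q ∈ s,
        ((if t % q ∈ I q then (1 : ℝ) else 0) - ((I q).card : ℝ) / q) := by
    intro t ht
    calc (P.card.choose k : ℝ) * (1 / 3) ^ k = ∑ _s ∈ P.powersetCard k, (1 / 3 : ℝ) ^ k := by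
          rw [sum_const, card_powersetCard, nsmul_eq_mul]
      _ ≤ _ := by
          refine sum_le_sum fun s hs => ?_
          rw [mem_powersetCard] at hs
          rw [one_mul]
          calc (1 / 3 : ℝ) ^ k = ∏ _q ∈ s, (1 / 3 : ℝ) := by rw [prod_const, hs.2]
            _ ≤ _ := by
                refine prod_le_prod (fun q _ => by norm_num) fun q hq => ?_
                rw [if_pos ((hI q (hs.1 hq)).2.2 t ht)]
                have := hfrac q (hs.1 hq)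
                linarith
  have hL : (E.card : ℝ) * ((P.card.choose k : ℝ) * (1 / 3) ^ k) ^ 2 ≤
      ∑ n ∈ Icc 1 X, (∑ s ∈ P.powersetCard k, (1 : ℝ) * ∏ q ∈ s,
        ((if n % q ∈ I q then (1 : ℝ) else 0) - ((I q).card : ℝ) / q)) ^ 2 := by
    calc (E.card : ℝ) * ((P.card.choose k : ℝ) * (1 / 3) ^ k) ^ 2
        = ∑ _t ∈ E, ((P.card.choose k : ℝ) * (1 / 3) ^ k) ^ 2 := by
          rw [sum_const, nsmul_eq_mul]
      _ ≤ ∑ t ∈ E, (∑ s ∈ P.powersetCard k, (1 : ℝ) * ∏ q ∈ s,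
          ((if t % q ∈ I q then (1 : ℝ) else 0) - ((I q).card : ℝ) / q)) ^ 2 :=
          sum_le_sum fun t ht => pow_le_pow_left₀ (by positivity) (hin t ht) 2
      _ ≤ _ := by
          refine sum_le_sum_of_subset_of_nonneg ?_ fun n _ _ => sq_nonneg _
          intro t ht
          exact mem_Icc.2 (hX t ht)
  have hfin : (E.card : ℝ) * ((P.card.choose k : ℝ) * (1 / 3) ^ k) ^ 2 ≤
      12 * X * (P.card.choose k : ℝ) := by
    refine hL.trans (hls.trans ?_)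
    have hR0 : 0 ≤ ∑ s ∈ P.powersetCard k, (1 : ℝ) ^ 2 * ∏ q ∈ s, ((I q).card : ℝ) / q :=
      sum_nonneg fun s _ => mul_nonneg (by norm_num)
        (prod_nonneg fun q _ => div_nonneg (Nat.cast_nonneg _) (Nat.cast_nonneg _))
    calc 6 * ((X : ℝ) + ((y ^ k : ℕ) : ℝ) ^ 2) *
          ∑ s ∈ P.powersetCard k, (1 : ℝ) ^ 2 * ∏ q ∈ s, ((I q).card : ℝ) / q
        ≤ 12 * X * ∑ s ∈ P.powersetCard k, (1 : ℝ) ^ 2 * ∏ q ∈ s, ((I q).card : ℝ) / q := by
          have hQ2 : 6 * ((X : ℝ) + ((y ^ k : ℕ) : ℝ) ^ 2) ≤ 12 * X := by linarith only [hQX]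
          exact mul_le_mul_of_nonneg_right hQ2 hR0
      _ ≤ _ := mul_le_mul_of_nonneg_left hR (by positivity)
  have hch := Pool.Agent.H278R3.D6.choose_lower P.card k h2k
  have hCpos : (0 : ℝ) < (P.card.choose k : ℝ) := by
    exact_mod_cast Nat.choose_pos (by omega)
  have h4 : (9 : ℝ) ^ k * ((1 / 3) ^ k) ^ 2 = 1 := by
    rw [← pow_mul, mul_comm k 2, pow_mul, ← mul_pow]
    norm_num
  have h5 : (E.card : ℝ) * (P.card.choose k : ℝ) ≤ 12 * X * 9 ^ k := by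
    refine le_of_mul_le_mul_right ?_ hCpos
    generalize (P.card.choose k : ℝ) = C at hfin ⊢
    generalize (E.card : ℝ) = a at hfin ⊢
    generalize ((1 : ℝ) / 3) ^ k = u at hfin h4
    have h6 : (0 : ℝ) ≤ 9 ^ k := by positivity
    generalize (9 : ℝ) ^ k = w at h4 h6 ⊢
    have h7 := mul_le_mul_of_nonneg_left hfin h6
    calc a * C * C = (w * u ^ 2) * (a * C ^ 2) := by rw [h4]; ring
      _ = w * (a * (C * u) ^ 2) := by ring
      _ ≤ w * (12 * X * C) := h7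
      _ = 12 * X * w * C := by ring
  calc (E.card : ℝ) * (P.card : ℝ) ^ k ≤ E.card * ((2 * k : ℝ) ^ k * (P.card.choose k : ℝ)) :=
        mul_le_mul_of_nonneg_left hch (Nat.cast_nonneg _)
    _ = (E.card * (P.card.choose k : ℝ)) * (2 * k : ℝ) ^ k := by ring
    _ ≤ (12 * X * 9 ^ k) * (2 * k : ℝ) ^ k := mul_le_mul_of_nonneg_right h5 (by positivity)
    _ = 12 * X * (18 * k : ℝ) ^ k := by
        rw [mul_assoc, ← mul_pow]
        congr 2
        ring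

/-- the bound for a given level -/
theorem level (r : ℕ) (hr : 2 ≤ r) (η : ℝ) (h0 : 0 < η) (h1 : η ≤ 1 / 4) : ∃ z₀ : ℕ, 2 ≤ z₀ ∧
    ∀ (X k : ℕ) (E : Finset ℕ), 1 ≤ k → (∀ t ∈ E, 1 ≤ t ∧ t ≤ X) →
      (z₀ : ℝ) + 1 ≤ (X : ℝ) ^ (1 / (2 * (k : ℝ))) →
      36 * (k : ℝ) ≤ ((X : ℝ) ^ (1 / (2 * (k : ℝ)))) ^ η →
      Sv r ⌊(X : ℝ) ^ (1 / (2 * (k : ℝ)))⌋₊ E →
      (E.card : ℝ) ≤ 12 * (X : ℝ) ^ (1 / 2 + 3 * η / 2) := by
  set B := max (2 ^ r) (6 * r) with hB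
  have e1 := many B η h0 (by linarith)
  have e2 := tendsto_natCast_atTop_atTop.eventually
    ((tendsto_rpow_atTop h0).eventually_ge_atTop (2 : ℝ))
  obtain ⟨z₀, hz₀⟩ := eventually_atTop.1 (e1.and e2)
  refine ⟨max z₀ 2, le_max_right _ _, fun X k E hk hE hY hkY hS => ?_⟩
  set Y : ℝ := (X : ℝ) ^ (1 / (2 * (k : ℝ))) with hYdef
  set z : ℕ := ⌊Y⌋₊ with hz
  have hk0 : (0 : ℝ) < k := by exact_mod_cast hk
  have hY1 : (z₀ : ℝ) + 1 ≤ Y := by
    refine le_trans ?_ hY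
    have : (z₀ : ℝ) ≤ ((max z₀ 2 : ℕ) : ℝ) := by exact_mod_cast le_max_left _ _
    linarith
  have hY3 : (3 : ℝ) ≤ Y := by
    refine le_trans ?_ hY
    have : (2 : ℝ) ≤ ((max z₀ 2 : ℕ) : ℝ) := by exact_mod_cast le_max_right z₀ 2
    linarith
  have hY0 : 0 < Y := by linarith
  have hzY : (z : ℝ) ≤ Y := Nat.floor_le hY0.le
  have hzY1 : Y < z + 1 := Nat.lt_floor_add_one Y
  have hz0 : z₀ ≤ z := by
    have : (z₀ : ℝ) < z + 1 := by linarith
    have : z₀ < z + 1 := by exact_mod_cast this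
    omega
  obtain ⟨f1, -⟩ := hz₀ z hz0
  have hzr : (1 : ℝ) ≤ z := by
    have : (2 : ℝ) < z + 1 := by linarith
    linarith
  have hz0' : (0 : ℝ) < z := by linarith
  have hz2 : Y / 2 ≤ z := by linarith
  -- `Y ^ (2 k) = X`
  have hX0 : (0 : ℝ) ≤ X := Nat.cast_nonneg _
  have hYk : Y ^ (2 * k) = X := by
    rw [hYdef, ← Real.rpow_natCast, ← Real.rpow_mul hX0]
    push_cast
    rw [one_div_mul_cancel (by positivity), Real.rpow_one]
  have hX1 : (1 : ℝ) ≤ X := by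
    rw [← hYk]
    exact one_le_pow₀ (by linarith)
  -- `z ^ η ≥ 18 k`
  have hzη : 18 * (k : ℝ) ≤ (z : ℝ) ^ η := by
    have g1 : (Y / 2) ^ η ≤ (z : ℝ) ^ η := Real.rpow_le_rpow (by positivity) hz2 h0.le
    rw [Real.div_rpow hY0.le (by norm_num)] at g1
    have g2 : (2 : ℝ) ^ η ≤ 2 := by
      calc (2 : ℝ) ^ η ≤ 2 ^ (1 : ℝ) := Real.rpow_le_rpow_of_exponent_le (by norm_num) (by linarith)
        _ = 2 := Real.rpow_one 2
    have g3 : Y ^ η / 2 ≤ Y ^ η / 2 ^ η := by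
      apply div_le_div_of_nonneg_left (by positivity) (by positivity) g2
    linarith
  -- `Y ^ (1 - η) ≤ z`
  have hzY2 : Y ^ (1 - η) ≤ z := by
    refine le_trans ?_ hz2
    have g1 : 2 ≤ Y ^ η := by
      have : (1 : ℝ) ≤ k := by exact_mod_cast hk
      linarith
    have g2 : Y = Y ^ (1 - η) * Y ^ η := by
      rw [← Real.rpow_add hY0]
      rw [sub_add_cancel, Real.rpow_one]
    have g3 : 0 < Y ^ (1 - η) := by positivity
    nlinarith
  have hcard : (z : ℝ) ^ (1 - η) ≤ ((PB B z).card : ℝ) := f1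
  have h2k : 2 * k ≤ (PB B z).card := by
    have g1 : (z : ℝ) ^ η ≤ (z : ℝ) ^ (1 - η) :=
      Real.rpow_le_rpow_of_exponent_le hzr (by linarith)
    have : (2 : ℝ) * k ≤ ((PB B z).card : ℝ) := by linarith
    exact_mod_cast this
  have hzk : (z ^ k) ^ 2 ≤ X := by
    have : (((z ^ k) ^ 2 : ℕ) : ℝ) ≤ X := by
      push_cast
      rw [← pow_mul, mul_comm k 2, ← hYk]
      exact pow_le_pow_left₀ hz0'.le hzY _
    exact_mod_cast this
  have hmain := large_core (B := B) hr hS hE (le_max_left _ _) (le_max_right _ _) hzk h2k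
  have h3 : (E.card : ℝ) * ((z : ℝ) ^ (1 - η)) ^ k ≤ 12 * X * ((z : ℝ) ^ η) ^ k := by
    refine (mul_le_mul_of_nonneg_left (pow_le_pow_left₀ (by positivity) hcard k)
      (Nat.cast_nonneg _)).trans (hmain.trans ?_)
    exact mul_le_mul_of_nonneg_left (pow_le_pow_left₀ (by positivity) hzη k) (by positivity)
  have h4 : (E.card : ℝ) * ((z : ℝ) ^ (1 - 2 * η)) ^ k ≤ 12 * X := by
    have g1 : (z : ℝ) ^ (1 - η) = (z : ℝ) ^ (1 - 2 * η) * (z : ℝ) ^ η := by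
      rw [← Real.rpow_add hz0']
      congr 1
      ring
    rw [g1, mul_pow] at h3
    have g2 : (0 : ℝ) < ((z : ℝ) ^ η) ^ k := by positivity
    refine le_of_mul_le_mul_right ?_ g2
    linarith
  have h5 : (X : ℝ) ^ (1 / 2 - 3 * η / 2) ≤ ((z : ℝ) ^ (1 - 2 * η)) ^ k := by
    have g1 : (Y ^ (1 - η)) ^ (1 - 2 * η) ≤ (z : ℝ) ^ (1 - 2 * η) :=
      Real.rpow_le_rpow (by positivity) hzY2 (by linarith)
    refine le_trans ?_ (pow_le_pow_left₀ (by positivity) g1 k)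
    rw [← Real.rpow_mul hY0.le, ← Real.rpow_natCast, ← Real.rpow_mul hY0.le]
    rw [hYdef, ← Real.rpow_mul hX0]
    refine Real.rpow_le_rpow_of_exponent_le hX1 ?_
    have g2 : 1 / (2 * (k : ℝ)) * ((1 - η) * (1 - 2 * η) * k) = (1 - η) * (1 - 2 * η) / 2 := by
      field_simp
    rw [g2]
    nlinarith [sq_nonneg η]
  have h6 : (E.card : ℝ) * (X : ℝ) ^ (1 / 2 - 3 * η / 2) ≤ 12 * X :=
    (mul_le_mul_of_nonneg_left h5 (Nat.cast_nonneg _)).trans h4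
  have hX0' : (0 : ℝ) < X := by linarith
  have h7 : (X : ℝ) = (X : ℝ) ^ (1 / 2 + 3 * η / 2) * (X : ℝ) ^ (1 / 2 - 3 * η / 2) := by
    rw [← Real.rpow_add hX0']
    have : 1 / 2 + 3 * η / 2 + (1 / 2 - 3 * η / 2) = 1 := by ring
    rw [this, Real.rpow_one]
  refine le_of_mul_le_mul_right ?_ (show (0 : ℝ) < (X : ℝ) ^ (1 / 2 - 3 * η / 2) by positivity)
  calc (E.card : ℝ) * (X : ℝ) ^ (1 / 2 - 3 * η / 2) ≤ 12 * X := h6
    _ = 12 * ((X : ℝ) ^ (1 / 2 + 3 * η / 2) * (X : ℝ) ^ (1 / 2 - 3 * η / 2)) := by rw [← h7]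
    _ = _ := by ring

/-- **The large sieve.** -/
theorem large (r : ℕ) (hr : 2 ≤ r) (ε : ℝ) (hε : 0 < ε) : ∃ c K : ℝ, 0 < c ∧ 0 < K ∧
    ∀ (X y : ℕ) (E : Finset ℕ), 1 ≤ X → (∀ t ∈ E, 1 ≤ t ∧ t ≤ X) → Sv r y E →
      (X : ℝ) ≤ Real.exp ((y : ℝ) ^ c) → (E.card : ℝ) ≤ K * (X : ℝ) ^ (1 / 2 + ε) := by
  obtain ⟨η, hη⟩ : ∃ η, η = min (ε / 2) (1 / 4) := ⟨_, rfl⟩
  have h0 : 0 < η := by rw [hη]; exact lt_min (by positivity) (by norm_num)
  have h1 : η ≤ 1 / 4 := by rw [hη]; exact min_le_right _ _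
  have hηε : 3 * η / 2 ≤ ε := by
    have : η ≤ ε / 2 := by rw [hη]; exact min_le_left _ _
    linarith
  obtain ⟨z₀, hz2, hlev⟩ := level r hr η h0 h1
  obtain ⟨c, hc⟩ : ∃ c : ℝ, c = η / 4 := ⟨_, rfl⟩
  have hc0 : 0 < c := by rw [hc]; positivity
  -- conditions on `y`
  have e1 : ∀ᶠ y : ℕ in atTop, (z₀ : ℝ) + 1 ≤ (y : ℝ) ^ (1 / 2 : ℝ) :=
    tendsto_natCast_atTop_atTop.eventually
      ((tendsto_rpow_atTop (show (0 : ℝ) < 1 / 2 by norm_num)).eventually_ge_atTop _)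
  have e2 : ∀ᶠ y : ℕ in atTop, (36 : ℝ) ≤ (y : ℝ) ^ c :=
    tendsto_natCast_atTop_atTop.eventually ((tendsto_rpow_atTop hc0).eventually_ge_atTop _)
  obtain ⟨y₀, hy₀⟩ := eventually_atTop.1 (e1.and (e2.and (eventually_ge_atTop 3)))
  -- conditions on `X`
  have e3 : ∀ᶠ X : ℕ in atTop, (z₀ : ℝ) + 1 ≤ (X : ℝ) ^ (1 / 2 : ℝ) :=
    tendsto_natCast_atTop_atTop.eventually
      ((tendsto_rpow_atTop (show (0 : ℝ) < 1 / 2 by norm_num)).eventually_ge_atTop _)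
  have e4 : ∀ᶠ X : ℕ in atTop, (36 : ℝ) ≤ ((X : ℝ) ^ (1 / 2 : ℝ)) ^ η :=
    (((tendsto_rpow_atTop h0).comp (tendsto_rpow_atTop (show (0 : ℝ) < 1 / 2 by norm_num))).comp
      tendsto_natCast_atTop_atTop).eventually_ge_atTop _
  obtain ⟨X₀, hX₀⟩ := eventually_atTop.1 (e3.and e4)
  refine ⟨c, 12 + X₀ + Real.exp ((y₀ : ℝ) ^ c), hc0, by positivity,
    fun X y E hX hE hS hexp => ?_⟩
  have hX1 : (1 : ℝ) ≤ X := by exact_mod_cast hX
  have hX0 : (0 : ℝ) < X := by linarith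
  have hEX : (E.card : ℝ) ≤ X := by
    have h2 : E ⊆ Icc 1 X := fun t ht => mem_Icc.2 (hE t ht)
    have h3 := card_le_card h2
    rw [Nat.card_Icc, Nat.add_sub_cancel] at h3
    exact_mod_cast h3
  have hpow1 : (1 : ℝ) ≤ (X : ℝ) ^ (1 / 2 + ε) := Real.one_le_rpow hX1 (by linarith)
  have hexp0 := Real.exp_pos ((y₀ : ℝ) ^ c)
  have hX00 : (0 : ℝ) ≤ X₀ := Nat.cast_nonneg _
  -- small cases
  rcases lt_or_ge y y₀ with hyy | hyy
  · have h2 : (X : ℝ) ≤ Real.exp ((y₀ : ℝ) ^ c) := by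
      refine hexp.trans (Real.exp_le_exp.2 ?_)
      exact Real.rpow_le_rpow (Nat.cast_nonneg _) (by exact_mod_cast hyy.le) hc0.le
    nlinarith
  rcases lt_or_ge X X₀ with hXX | hXX
  · have h2 : (X : ℝ) ≤ X₀ := by exact_mod_cast hXX.le
    nlinarith
  obtain ⟨f1, f2, f3⟩ := hy₀ y hyy
  obtain ⟨g1, g2⟩ := hX₀ X hXX
  have hy3 : (3 : ℝ) ≤ y := by exact_mod_cast f3
  have hy0 : (0 : ℝ) < y := by linarith
  -- the choice of `k`
  have hex : ∃ l : ℕ, (X : ℝ) ≤ ((y : ℝ) ^ 2) ^ (l + 1) := by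
    obtain ⟨l, hl⟩ := pow_unbounded_of_one_lt (X : ℝ) (show (1 : ℝ) < (y : ℝ) ^ 2 by nlinarith)
    refine ⟨l, hl.le.trans ?_⟩
    exact pow_le_pow_right₀ (by nlinarith) (Nat.le_succ l)
  classical
  obtain ⟨l, hl⟩ : ∃ l, l = Nat.find hex := ⟨_, rfl⟩
  have hl1 : (X : ℝ) ≤ ((y : ℝ) ^ 2) ^ (l + 1) := by rw [hl]; exact Nat.find_spec hex
  have hlk : (0 : ℝ) < 2 * (((l + 1 : ℕ)) : ℝ) := by positivity
  set Y : ℝ := (X : ℝ) ^ (1 / (2 * (((l + 1 : ℕ)) : ℝ))) with hY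
  have hYy : Y ≤ y := by
    rw [hY, ← Real.le_rpow_inv_iff_of_pos hX0.le hy0.le (by positivity)]
    rw [one_div, inv_inv]
    refine hl1.trans (le_of_eq ?_)
    rw [← pow_mul, ← Real.rpow_natCast]
    push_cast
    rfl
  have hYfl : ⌊Y⌋₊ ≤ y := by
    have h2 : (⌊Y⌋₊ : ℝ) ≤ Y := Nat.floor_le (by positivity)
    have : (⌊Y⌋₊ : ℝ) ≤ y := h2.trans hYy
    exact_mod_cast this
  have hcond : (z₀ : ℝ) + 1 ≤ Y ∧ 36 * (((l + 1 : ℕ)) : ℝ) ≤ Y ^ η := by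
    rcases Nat.eq_zero_or_pos l with hl0 | hl0
    · rw [hY, hl0]
      norm_num
      norm_num at g1 g2
      exact ⟨g1, g2⟩
    · obtain ⟨m, rfl⟩ := Nat.exists_eq_succ_of_ne_zero hl0.ne'
      have h2 : ((y : ℝ) ^ 2) ^ (m + 1) < X := by
        have := Nat.find_min hex (m := m) (by omega)
        push Not at this
        exact this
      have h3 : (y : ℝ) ^ (m + 1 + 1) < X := by
        refine lt_of_le_of_lt ?_ h2
        rw [← pow_mul]
        exact pow_le_pow_right₀ (by linarith) (by omega)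
      have hk0 : (0 : ℝ) < (((m + 1 + 1 : ℕ)) : ℝ) := by positivity
      have h4 : (y : ℝ) ^ (1 / 2 : ℝ) ≤ Y := by
        rw [hY]
        have h5 : (y : ℝ) ^ (1 / 2 : ℝ) = ((y : ℝ) ^ (m + 1 + 1)) ^ (1 / (2 * (((m + 1 + 1 : ℕ)) : ℝ))) := by
          rw [← Real.rpow_natCast, ← Real.rpow_mul hy0.le]
          congr 1
          field_simp
        rw [show m.succ + 1 = m + 1 + 1 from rfl, h5]
        exact Real.rpow_le_rpow (by positivity) h3.le (by positivity)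
      have h5 : (((m + 1 + 1 : ℕ)) : ℝ) ≤ (y : ℝ) ^ c := by
        have h6 : Real.exp (((m + 1 + 1 : ℕ)) : ℝ) ≤ Real.exp ((y : ℝ) ^ c) := by
          refine le_trans ?_ (h3.le.trans hexp)
          rw [← Real.exp_one_rpow, Real.rpow_natCast]
          exact pow_le_pow_left₀ (Real.exp_pos 1).le (by linarith [Real.exp_one_lt_d9]) _
        exact Real.exp_le_exp.1 h6
      refine ⟨f1.trans h4, ?_⟩
      have h6 : ((y : ℝ) ^ (1 / 2 : ℝ)) ^ η ≤ Y ^ η := Real.rpow_le_rpow (by positivity) h4 h0.le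
      have h7 : ((y : ℝ) ^ (1 / 2 : ℝ)) ^ η = (y : ℝ) ^ c * (y : ℝ) ^ c := by
        rw [← Real.rpow_mul hy0.le, ← Real.rpow_add hy0, hc]
        congr 1
        ring
      rw [h7] at h6
      refine le_trans ?_ h6
      have h8 : (0 : ℝ) ≤ (y : ℝ) ^ c := by positivity
      show 36 * (((m + 1 + 1 : ℕ)) : ℝ) ≤ _
      nlinarith
  have h9 := hlev X (l + 1) E (by omega) hE hcond.1 hcond.2 (hS.mono hYfl)
  have h10 : (X : ℝ) ^ (1 / 2 + 3 * η / 2) ≤ (X : ℝ) ^ (1 / 2 + ε) :=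
    Real.rpow_le_rpow_of_exponent_le hX1 (by linarith)
  nlinarith

end Pool.Agent.Q42.FD
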