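import Mathlib

/-!
# The last coefficients for which a polynomial splits over a finite field
-/

set_option autoImplicit false

namespace Pool.Agent.Q42.FD

open Finset Polynomial

section

variable {F : Type} [Field F]

/-- `1 + c_1 X + ⋯ + c_{r-1} X ^ (r-1)` -/
noncomputable def low (r : ℕ) (c : ℕ → F) : F[X] := ∑ j ∈ range r, C (c j) * X ^ j

/-- the polynomial of the critical points -/
noncomputable def crit (r : ℕ) (c : ℕ → F) : F[X] :=
  ∑ j ∈ range r, C (((r : F) - (j : F)) * c j) * X ^ j

/-- `m` is good if `1 + c_1 X + ⋯ + c_{r-1} X ^ (r-1) + m X ^ r` splits -/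
def Good (r : ℕ) (c : ℕ → F) (m : F) : Prop :=
  ∃ d : Fin r → F, ∏ i, (1 + C (d i) * X) = low r c + C m * X ^ r

theorem prod_root {r : ℕ} {c : ℕ → F} {m : F} {d : Fin r → F}
    (h : ∏ i, (1 + C (d i) * X) = low r c + C m * X ^ r) : ∏ i, d i = m := by
  have h1 : (∏ i, (1 + C (d i) * X) : F[X]).coeff r = (low r c + C m * X ^ r).coeff r := by rw [h]
  have h2 : (∏ i, (1 + C (d i) * X) : F[X]).coeff r = ∏ i, d i := by
    have h3 := coeff_prod_of_natDegree_le (univ : Finset (Fin r)) (fun i => 1 + C (d i) * X) 1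
      (by
        intro i _
        refine (natDegree_add_le _ _).trans ?_
        rw [natDegree_one]
        exact max_le (Nat.zero_le _) ((natDegree_C_mul_le _ _).trans natDegree_X_le))
    rw [card_univ, Fintype.card_fin, mul_one] at h3
    rw [h3]
    refine prod_congr rfl fun i _ => ?_
    rw [coeff_add, coeff_C_mul, coeff_X_one, coeff_one, if_neg (by norm_num)]
    ring
  rw [h2] at h1
  rw [h1, coeff_add, coeff_C_mul, coeff_X_pow, if_pos rfl, mul_one, low, finsetSum_coeff]
  rw [sum_eq_zero, zero_add]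
  intro j hj
  rw [coeff_C_mul, coeff_X_pow, if_neg (by have := mem_range.1 hj; omega), mul_zero]

theorem root_eval {r : ℕ} {c : ℕ → F} {m : F} {d : Fin r → F}
    (h : ∏ i, (1 + C (d i) * X) = low r c + C m * X ^ r) (i : Fin r) (hd : d i ≠ 0) :
    (low r c).eval (-(d i)⁻¹) + m * (-(d i)⁻¹) ^ r = 0 := by
  have h1 := congrArg (Polynomial.eval (-(d i)⁻¹)) h
  rw [eval_prod, prod_eq_zero (mem_univ i)] at h1
  · rw [eval_add, eval_mul, eval_C, eval_pow, eval_X] at h1
    exact h1.symm
  · rw [eval_add, eval_one, eval_mul, eval_C, eval_X]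
    field_simp
    ring

theorem crit_eq (r : ℕ) (c : ℕ → F) (m : F) :
    crit r c = C (r : F) * (low r c + C m * X ^ r) - X * derivative (low r c + C m * X ^ r) := by
  have h1 : ∀ (j : ℕ) (a : F), C ((r : F) - (j : F)) * (C a * X ^ j) =
      C (r : F) * (C a * X ^ j) - X * derivative (C a * X ^ j) := by
    intro j a
    rw [derivative_C_mul, derivative_X_pow]
    rcases Nat.eq_zero_or_pos j with rfl | hj
    · simp
    · have h2 : (X : F[X]) ^ j = X * X ^ (j - 1) := by
        rw [← pow_succ']
        congr 1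
        omega
      rw [map_sub, h2]
      simp only [map_natCast]
      ring
  have h2 := h1 r m
  rw [sub_self, map_zero, zero_mul] at h2
  have h3 : crit r c = C (r : F) * low r c - X * derivative (low r c) := by
    unfold crit low
    rw [derivative_sum, mul_sum, mul_sum, ← sum_sub_distrib]
    refine sum_congr rfl fun j _ => ?_
    rw [← h1, C_mul, mul_assoc]
  rw [derivative_add, mul_add, mul_add, h3]
  linear_combination h2

theorem double_root {r : ℕ} {c : ℕ → F} {m : F} {d : Fin r → F}
    (h : ∏ i, (1 + C (d i) * X) = low r c + C m * X ^ r) (i j : Fin r) (hij : i ≠ j)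
    (he : d i = d j) (hd : d i ≠ 0) : (crit r c).eval (-(d i)⁻¹) = 0 := by
  classical
  have h1 : (∏ i, (1 + C (d i) * X) : F[X]) =
      (1 + C (d i) * X) ^ 2 * ∏ k ∈ (univ.erase i).erase j, (1 + C (d k) * X) := by
    rw [← mul_prod_erase univ _ (mem_univ i),
      ← mul_prod_erase (univ.erase i) _ (mem_erase.2 ⟨hij.symm, mem_univ j⟩), ← he]
    ring
  have h2 : (1 + C (d i) * X : F[X]).eval (-(d i)⁻¹) = 0 := by
    rw [eval_add, eval_one, eval_mul, eval_C, eval_X]
    field_simp
    ring
  rw [crit_eq r c m, ← h, h1]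
  generalize (∏ k ∈ (univ.erase i).erase j, (1 + C (d k) * X) : F[X]) = w
  rw [derivative_mul, derivative_pow]
  simp only [eval_sub, eval_mul, eval_pow, eval_add, h2, eval_C, eval_X]
  simp

theorem crit_ne (r : ℕ) (c : ℕ → F) (hr : 1 ≤ r) (h0 : c 0 = 1) (hrF : (r : F) ≠ 0) :
    crit r c ≠ 0 := by
  intro h
  have h1 : (crit r c).coeff 0 = r := by
    unfold crit
    rw [finsetSum_coeff, sum_eq_single 0]
    · simp [h0]
    · intro j _ hj
      rw [coeff_C_mul, coeff_X_pow, if_neg (Ne.symm hj), mul_zero]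
    · intro h
      exact absurd (mem_range.2 hr) h
  rw [h, coeff_zero] at h1
  exact hrF h1.symm

theorem crit_deg (r : ℕ) (c : ℕ → F) (hr : 1 ≤ r) : (crit r c).natDegree ≤ r - 1 := by
  unfold crit
  refine natDegree_sum_le_of_forall_le _ _ fun j hj => ?_
  refine (natDegree_C_mul_X_pow_le _ _).trans ?_
  have := mem_range.1 hj
  omega

open Classical in
/-- **The number of the good `m`.** -/
theorem card_good [Fintype F] (r : ℕ) (c : ℕ → F) (hr : 1 ≤ r) (h0 : c 0 = 1)
    (hrF : (r : F) ≠ 0) (G : Finset F) (hG : ∀ m ∈ G, m = 0 ∨ Good r c m) :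
    r * G.card ≤ Fintype.card F + r ^ 2 := by
  set ψ : F → F := fun τ => -(low r c).eval τ / τ ^ r with hψ
  set N2 : Finset F := (crit r c).roots.toFinset.image ψ with hN2
  set N1 : Finset F := (G.erase 0) \ N2 with hN1
  have hψ1 : ∀ τ m : F, τ ≠ 0 → (low r c).eval τ + m * τ ^ r = 0 → ψ τ = m := by
    intro τ m hτ h
    rw [hψ]
    simp only
    rw [div_eq_iff (pow_ne_zero r hτ)]
    linear_combination -h
  have h2 : N2.card ≤ r - 1 := by
    refine card_image_le.trans ((Multiset.toFinset_card_le _).trans ?_)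
    exact (card_roots' _).trans (crit_deg r c hr)
  have h3 : r * N1.card ≤ Fintype.card F - 1 := by
    have h4 : ∀ m ∈ N1, r ≤ (((univ : Finset F).erase 0).filter fun τ => ψ τ = m).card := by
      intro m hm
      rw [hN1, mem_sdiff, mem_erase] at hm
      obtain ⟨⟨hm0, hmG⟩, hm2⟩ := hm
      obtain ⟨d, hd⟩ := (hG m hmG).resolve_left hm0
      have hd0 : ∀ i, d i ≠ 0 := by
        intro i hi
        apply hm0
        rw [← prod_root hd]
        exact prod_eq_zero (mem_univ i) hi
      have hinj : Function.Injective d := by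
        intro i j hij
        by_contra hne
        apply hm2
        rw [hN2, mem_image]
        refine ⟨-(d i)⁻¹, ?_, hψ1 _ _ (neg_ne_zero.2 (inv_ne_zero (hd0 i))) (root_eval hd i (hd0 i))⟩
        rw [Multiset.mem_toFinset, mem_roots (crit_ne r c hr h0 hrF), IsRoot.def]
        exact double_root hd i j hne hij (hd0 i)
      have h5 : (univ.image fun i => -(d i)⁻¹) ⊆
          ((univ : Finset F).erase 0).filter fun τ => ψ τ = m := by
        intro τ hτ
        rw [mem_image] at hτ
        obtain ⟨i, -, rfl⟩ := hτ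
        have h6 : -(d i)⁻¹ ≠ 0 := neg_ne_zero.2 (inv_ne_zero (hd0 i))
        rw [mem_filter, mem_erase]
        exact ⟨⟨h6, mem_univ _⟩, hψ1 _ _ h6 (root_eval hd i (hd0 i))⟩
      have h7 : (univ.image fun i => -(d i)⁻¹).card = r := by
        rw [card_image_of_injective, card_univ, Fintype.card_fin]
        intro i j hij
        exact hinj (inv_injective (neg_injective hij))
      rw [← h7]
      exact card_le_card h5
    have h5 : ∑ m ∈ N1, (((univ : Finset F).erase 0).filter fun τ => ψ τ = m).card ≤
        ((univ : Finset F).erase 0).card := by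
      rw [← card_biUnion]
      · exact card_le_card (biUnion_subset.2 fun m _ => filter_subset _ _)
      · intro a _ b _ hab
        rw [Function.onFun, disjoint_left]
        intro τ h1 h2
        rw [mem_filter] at h1 h2
        exact hab (h1.2.symm.trans h2.2)
    have h6 : ∑ _m ∈ N1, r ≤ ∑ m ∈ N1, (((univ : Finset F).erase 0).filter fun τ => ψ τ = m).card :=
      sum_le_sum h4
    rw [sum_const, smul_eq_mul] at h6
    rw [card_erase_of_mem (mem_univ _), card_univ] at h5
    rw [mul_comm]
    exact h6.trans h5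
  have h4 : G.card ≤ N1.card + N2.card + 1 := by
    have h5 : G ⊆ insert 0 (N1 ∪ N2) := by
      intro m hm
      rw [mem_insert, mem_union, hN1, mem_sdiff, mem_erase]
      by_cases h : m = 0
      · exact Or.inl h
      · by_cases h' : m ∈ N2
        · exact Or.inr (Or.inr h')
        · exact Or.inr (Or.inl ⟨⟨h, hm⟩, h'⟩)
    have := (card_le_card h5).trans (card_insert_le _ _)
    have := card_union_le N1 N2
    omega
  have h5 : G.card ≤ N1.card + r := by omega
  calc r * G.card ≤ r * (N1.card + r) := Nat.mul_le_mul_left _ h5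
    _ = r * N1.card + r ^ 2 := by ring
    _ ≤ _ := by omega

end

end Pool.Agent.Q42.FD
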