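import Mathlib
import Pool.Agent.Q42.SM.Glue
import Pool.Agent.Q42.SM.Integ
import Pool.Agent.Q42.FD.Res
import Pool.Agent.Q42.FD.Large

/-!
# The degrees of the subvarieties with given lower Chern classes, modulo the primes
-/

set_option autoImplicit false

namespace Pool.Agent.Q42.FD

open Finset Polynomial Pool.Agent.Q42.SM Pool.Agent.Q49.RB

/-- `m h ^ r` is the last Chern class, and the other ones are `c_1 h, …, c_{r-1} h ^ (r-1)`, for
some nonsingular subvariety of codimension `r` of some `P^n` with `n ≥ N` -/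
def Occ (N r : ℕ) (c : ℕ → ℤ) (m : ℤ) : Prop :=
  ∃ n ≥ N, ∃ I : Ideal (Poly n), IsSmoothVariety n r I ∧
    HasNormalChernClasses r I (Function.update c r m)

theorem occ_good {N r : ℕ} (hr : 1 ≤ r) {c : ℕ → ℤ} {m : ℤ} (h : Occ N r c m) (p : ℕ)
    [Fact p.Prime] (hp : p.Prime) (h1 : 2 ^ r < p) (h2 : p + 2 ^ r ≤ N + 1) :
    c 0 = 1 ∧ ((m : ZMod p) = 0 ∨ Good r (fun j => ((c j : ℤ) : ZMod p)) (m : ZMod p)) := by
  obtain ⟨n, hn, I, hI, δ, hδ⟩ := h
  have h0 := c_zero hδ.1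
  rw [Function.update_of_ne (by omega)] at h0
  refine ⟨h0, ?_⟩
  by_cases hm : (p : ℤ) ∣ m
  · exact Or.inl ((ZMod.intCast_zmod_eq_zero_iff_dvd m p).2 hm)
  · right
    obtain ⟨d, hd⟩ := splits_mod n p hp h1 (by omega) hδ.1 (integral_of_chern hδ)
      (by rwa [Function.update_self])
    refine ⟨fun i => ((d i : ℤ) : ZMod p), ?_⟩
    rw [Polynomial.map_prod, Polynomial.map_sum, sum_range_succ, Function.update_self] at hd
    have e1 : ∀ i, Polynomial.map (Int.castRingHom (ZMod p)) (1 + C (d i) * X) =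
        1 + C ((d i : ℤ) : ZMod p) * X := by
      intro i
      rw [Polynomial.map_add, Polynomial.map_one, Polynomial.map_mul, Polynomial.map_C,
        Polynomial.map_X, eq_intCast]
    rw [prod_congr rfl fun i _ => e1 i] at hd
    rw [hd, low, Polynomial.map_mul, Polynomial.map_C, Polynomial.map_pow, Polynomial.map_X,
      eq_intCast]
    congr 1
    refine sum_congr rfl fun j hj => ?_
    rw [Function.update_of_ne (by have := mem_range.1 hj; omega), Polynomial.map_mul,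
      Polynomial.map_C, Polynomial.map_pow, Polynomial.map_X, eq_intCast]

/-- the translated degrees lie in few classes -/
theorem sv {N r : ℕ} (hr : 1 ≤ r) {c : ℕ → ℤ} {M : ℤ} {X : ℕ} {T : Finset ℤ}
    (hT : ∀ m ∈ T, M < m ∧ m ≤ M + X ∧ Occ N r c m) (y : ℕ) (hy : y + 2 ^ r ≤ N + 1) :
    Sv r y (T.image fun m => (m - M).toNat) := by
  classical
  intro p hp h1 h2
  have : Fact p.Prime := ⟨hp⟩
  rcases T.eq_empty_or_nonempty with rfl | ⟨m₀, hm₀⟩
  · refine ⟨∅, empty_subset _, by simp, by simp⟩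
  have hc0 := (occ_good hr (hT m₀ hm₀).2.2 p hp h1 (by omega)).1
  set G : Finset (ZMod p) := univ.filter fun m =>
    m = 0 ∨ Good r (fun j => ((c j : ℤ) : ZMod p)) m with hG
  have hcard := card_good r (fun j => ((c j : ℤ) : ZMod p)) hr (by simp [hc0]) (by
      intro h
      rw [ZMod.natCast_eq_zero_iff] at h
      have := Nat.le_of_dvd hr h
      have := Nat.lt_two_pow_self (n := r)
      omega) G (fun m hm => (mem_filter.1 hm).2)
  rw [ZMod.card] at hcard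
  refine ⟨(range p).filter fun a => (((a : ℤ) + M : ℤ) : ZMod p) ∈ G, filter_subset _ _, ?_, ?_⟩
  · refine le_trans (Nat.mul_le_mul_left _ ?_) hcard
    refine card_le_card_of_injOn (fun a => (((a : ℤ) + M : ℤ) : ZMod p)) ?_ ?_
    · intro a ha
      exact (mem_filter.1 ha).2
    · intro a ha b hb hab
      rw [coe_filter, Set.mem_ofPred_eq, mem_range] at ha hb
      simp only at hab
      push_cast at hab
      rw [add_left_inj, ZMod.natCast_eq_natCast_iff'] at hab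
      rwa [Nat.mod_eq_of_lt ha.1, Nat.mod_eq_of_lt hb.1] at hab
  · intro t ht
    rw [mem_image] at ht
    obtain ⟨m, hm, rfl⟩ := ht
    obtain ⟨g1, g2, g3⟩ := hT m hm
    rw [mem_filter, mem_range]
    refine ⟨Nat.mod_lt _ hp.pos, ?_⟩
    have h4 : (((((m - M).toNat % p : ℕ) : ℤ) + M : ℤ) : ZMod p) = (m : ZMod p) := by
      push_cast
      have h5 : (((m - M).toNat : ℕ) : ZMod p) = (((m - M).toNat : ℤ) : ZMod p) := by push_cast; rfl
      rw [h5, Int.toNat_of_nonneg (by omega)]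
      push_cast
      ring
    rw [h4, hG, mem_filter]
    exact ⟨mem_univ _, (occ_good hr g3 p hp h1 (by omega)).2⟩

theorem img {M : ℤ} {X : ℕ} {T : Finset ℤ} (hT : ∀ m ∈ T, M < m ∧ m ≤ M + X) :
    (∀ t ∈ T.image fun m => (m - M).toNat, 1 ≤ t ∧ t ≤ X) ∧
      (T.image fun m => (m - M).toNat).card = T.card := by
  constructor
  · intro t ht
    rw [mem_image] at ht
    obtain ⟨m, hm, rfl⟩ := ht
    have := hT m hm
    omega
  · refine card_image_of_injOn ?_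
    intro a ha b hb hab
    have h1 := hT a ha
    have h2 := hT b hb
    simp only at hab
    omega

theorem few_larger (r : ℕ) (hr : 2 ≤ r) : ∃ K : ℝ, 0 < K ∧ ∀ (N : ℕ) (c : ℕ → ℤ) (M : ℤ) (X : ℕ)
    (T : Finset ℤ), 1 ≤ X → (∀ m ∈ T, M < m ∧ m ≤ M + X ∧ Occ N r c m) →
      K * (X : ℝ) ^ (1 / (r : ℝ)) ≤ N → (T.card : ℝ) ≤ K * (X : ℝ) ^ (1 / (r : ℝ)) := by
  obtain ⟨K, hK1, hK⟩ := larger r (by omega)
  refine ⟨K + 2 ^ r, by positivity, fun N c M X T hX hT hN => ?_⟩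
  have hX1 : (1 : ℝ) ≤ X := by exact_mod_cast hX
  have hR : 1 ≤ (X : ℝ) ^ (1 / (r : ℝ)) := Real.one_le_rpow hX1 (by positivity)
  have h2r : (0 : ℝ) < 2 ^ r := by positivity
  have h1 : (2 : ℝ) ^ r ≤ N := by nlinarith
  have h1' : 2 ^ r ≤ N := by exact_mod_cast h1
  obtain ⟨g1, g2⟩ := img (fun m hm => ⟨(hT m hm).1, (hT m hm).2.1⟩ : ∀ m ∈ T, M < m ∧ m ≤ M + X)
  have h2 := hK X (N - 2 ^ r) _ hX g1 (sv (by omega) hT (N - 2 ^ r) (by omega)) (by
    rw [Nat.cast_sub h1']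
    push_cast
    nlinarith)
  rw [g2] at h2
  nlinarith

theorem few_large (r : ℕ) (hr : 2 ≤ r) (ε : ℝ) (hε : 0 < ε) : ∃ a K : ℝ, 0 < a ∧ 0 < K ∧
    ∀ (N : ℕ) (c : ℕ → ℤ) (M : ℤ) (X : ℕ) (T : Finset ℤ), 1 ≤ X →
      (∀ m ∈ T, M < m ∧ m ≤ M + X ∧ Occ N r c m) → (X : ℝ) ≤ Real.exp ((N : ℝ) ^ a) →
        (T.card : ℝ) ≤ K * (X : ℝ) ^ (1 / 2 + ε) := by
  obtain ⟨a, K, ha, hK0, hK⟩ := large r hr ε hε
  obtain ⟨b, hb⟩ : ∃ b : ℝ, b = a / 2 := ⟨_, rfl⟩
  have hb0 : 0 < b := by rw [hb]; positivity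
  obtain ⟨N₀, hN₀⟩ : ∃ N₀ : ℕ, N₀ = 4 ^ (r + 1) := ⟨_, rfl⟩
  refine ⟨b, K + Real.exp ((N₀ : ℝ) ^ b), hb0, by positivity, fun N c M X T hX hT hXN => ?_⟩
  have hX1 : (1 : ℝ) ≤ X := by exact_mod_cast hX
  have hR : 1 ≤ (X : ℝ) ^ (1 / 2 + ε) := Real.one_le_rpow hX1 (by positivity)
  obtain ⟨g1, g2⟩ := img (fun m hm => ⟨(hT m hm).1, (hT m hm).2.1⟩ : ∀ m ∈ T, M < m ∧ m ≤ M + X)
  rcases lt_or_ge N N₀ with h | h
  · have h3 : (T.card : ℝ) ≤ X := by
      rw [← g2]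
      have h4 : (T.image fun m => (m - M).toNat) ⊆ Icc 1 X := fun t ht => mem_Icc.2 (g1 t ht)
      have h5 := card_le_card h4
      rw [Nat.card_Icc, Nat.add_sub_cancel] at h5
      exact_mod_cast h5
    have h4 : (X : ℝ) ≤ Real.exp ((N₀ : ℝ) ^ b) := by
      refine hXN.trans (Real.exp_le_exp.2 ?_)
      exact Real.rpow_le_rpow (Nat.cast_nonneg _) (by exact_mod_cast h.le) hb0.le
    have h5 := Real.exp_pos ((N₀ : ℝ) ^ b)
    nlinarith
  · have h4 : 2 ^ r ≤ N ∧ 2 * 2 ^ r ≤ N ∧ 4 ≤ N := by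
      have e1 : (4 : ℕ) ^ (r + 1) = (2 ^ (r + 1)) * (2 ^ (r + 1)) := by
        rw [← mul_pow]
        norm_num
      have e2 : 2 * 2 ^ r = 2 ^ (r + 1) := by ring
      have e3 : 1 ≤ 2 ^ r := Nat.one_le_two_pow
      have e4 : 2 ^ (r + 1) * 1 ≤ 2 ^ (r + 1) * 2 ^ (r + 1) := Nat.mul_le_mul_left _ Nat.one_le_two_pow
      refine ⟨by omega, by omega, ?_⟩
      have e5 : (4 : ℕ) ^ 1 ≤ 4 ^ (r + 1) := Nat.pow_le_pow_right (by norm_num) (by omega)
      omega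
    obtain ⟨h5, h6, h7⟩ := h4
    have h8 : (N : ℝ) ^ b ≤ ((N - 2 ^ r : ℕ) : ℝ) ^ a := by
      have e1 : (N : ℝ) / 2 ≤ ((N - 2 ^ r : ℕ) : ℝ) := by
        have : N ≤ 2 * (N - 2 ^ r) := by omega
        have : (N : ℝ) ≤ 2 * ((N - 2 ^ r : ℕ) : ℝ) := by exact_mod_cast this
        linarith
      have hN4 : (4 : ℝ) ≤ N := by exact_mod_cast h7
      have e2 : (N : ℝ) ^ (1 / 2 : ℝ) ≤ (N : ℝ) / 2 := by
        rw [← Real.sqrt_eq_rpow]
        rw [Real.sqrt_le_left (by linarith)]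
        nlinarith
      have e3 := Real.rpow_le_rpow (by positivity) (e2.trans e1) ha.le
      rw [← Real.rpow_mul (by positivity)] at e3
      have e4 : a / 2 = 1 / 2 * a := by ring
      rw [hb, e4]
      exact e3
    have h9 := hK X (N - 2 ^ r) _ hX g1 (sv (by omega) hT (N - 2 ^ r) (by omega))
      (hXN.trans (Real.exp_le_exp.2 h8))
    rw [g2] at h9
    have h5 := Real.exp_pos ((N₀ : ℝ) ^ b)
    nlinarith

end Pool.Agent.Q42.FD
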