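import Mathlib
import Pool.Agent.Q42.FD.Main
import Pool.Agent.Q42.SF.Fin
import Pool.Agent.Q49.RB.Law8

/-!
# The second Chern classes of the rank two bundles with given first Chern class
-/

set_option autoImplicit false

namespace Pool.Agent.Q42.FD

open Finset Polynomial Pool.Agent.Q49.RB Pool.Agent.Q42.SF

/-- the translated integers lie in few classes -/
theorem sv_gen {r : ℕ} (hr : 1 ≤ r) {c : ℕ → ℤ} (hc0 : c 0 = 1) {M : ℤ} {T : Finset ℤ} (y : ℕ)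
    (hM : ∀ m ∈ T, M < m)
    (hT : ∀ m ∈ T, ∀ p : ℕ, p.Prime → 2 ^ r < p → p ≤ y → ∀ _ : Fact p.Prime,
      (m : ZMod p) = 0 ∨ Good r (fun j => ((c j : ℤ) : ZMod p)) (m : ZMod p)) :
    Sv r y (T.image fun m => (m - M).toNat) := by
  classical
  intro p hp h1 h2
  have : Fact p.Prime := ⟨hp⟩
  set G : Finset (ZMod p) := univ.filter fun m =>
    m = 0 ∨ Good r (fun j => ((c j : ℤ) : ZMod p)) m with hG
  have hcard := card_good r (fun j => ((c j : ℤ) : ZMod p)) hr (by simp [hc0]) (by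
      intro h
      rw [ZMod.natCast_eq_zero_iff] at h
      have := Nat.le_of_dvd hr h
      have := Nat.lt_two_pow_self (n := r)
      omega) G (fun m hm => (mem_filter.1 hm).2)
  rw [ZMod.card] at hcard
  refine ⟨(range p).filter fun a => (((a : ℤ) + M : ℤ) : ZMod p) ∈ G, filter_subset _ _, ?_, ?_⟩
  · refine le_trans (Nat.mul_le_mul_left _ ?_) hcard
    refine card_le_card_of_injOn (fun a => (((a : ℤ) + M : ℤ) : ZMod p)) ?_ ?_
    · intro a ha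
      exact (mem_filter.1 ha).2
    · intro a ha b hb hab
      rw [coe_filter, Set.mem_ofPred_eq, mem_range] at ha hb
      simp only at hab
      push_cast at hab
      rw [add_left_inj, ZMod.natCast_eq_natCast_iff'] at hab
      rwa [Nat.mod_eq_of_lt ha.1, Nat.mod_eq_of_lt hb.1] at hab
  · intro t ht
    rw [mem_image] at ht
    obtain ⟨m, hm, rfl⟩ := ht
    have g1 := hM m hm
    rw [mem_filter, mem_range]
    refine ⟨Nat.mod_lt _ hp.pos, ?_⟩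
    have h4 : (((((m - M).toNat % p : ℕ) : ℤ) + M : ℤ) : ZMod p) = (m : ZMod p) := by
      push_cast
      have h5 : (((m - M).toNat : ℕ) : ZMod p) = (((m - M).toNat : ℤ) : ZMod p) := by push_cast; rfl
      rw [h5, Int.toNat_of_nonneg (by omega)]
      push_cast
      ring
    rw [h4, hG, mem_filter]
    exact ⟨mem_univ _, hT m hm p hp h1 h2 this⟩

/-- the discriminant is a square modulo the odd primes smaller than `n` -/
theorem sch_square {n : ℕ} {c₁ c₂ : ℤ} (h : Sch n c₁ c₂) (p : ℕ) [Fact p.Prime] (hp : p.Prime)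
    (hp2 : p ≠ 2) (hpn : p + 1 ≤ n) : IsSquare (((c₁ ^ 2 - 4 * c₂ : ℤ)) : ZMod p) := by
  obtain ⟨x, hs, hm, hI⟩ := h
  obtain ⟨δ, d, hδ, hΔ⟩ := exists_fund c₁ c₂
  have hD := (law n hδ c₁ c₂ d hΔ x hs hm).1 hI
  rw [hΔ]
  by_cases hin : InertAt δ p
  · have h1 := (hD p hp 0).1 hin (by simpa using hpn)
    rw [zero_add, pow_one] at h1
    have h2 : (d : ZMod p) = 0 := (ZMod.intCast_zmod_eq_zero_iff_dvd d p).2 h1
    push_cast
    rw [h2]
    exact ⟨0, by ring⟩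
  · unfold InertAt at hin
    push Not at hin
    obtain ⟨y, hy⟩ := hin
    obtain ⟨z, hz⟩ := sq_of_root hδ y hy
    push_cast
    rw [hz]
    exact ⟨z * d, by ring⟩

theorem sch_good {n : ℕ} {c₁ c₂ : ℤ} (h : Sch n c₁ c₂) (p : ℕ) [Fact p.Prime] (hp : p.Prime)
    (hp2 : p ≠ 2) (hpn : p + 1 ≤ n) :
    Good 2 (fun j => (((if j = 0 then 1 else c₁ : ℤ)) : ZMod p)) (c₂ : ZMod p) := by
  obtain ⟨z, hz⟩ := sch_square h p hp hp2 hpn
  have h2 : (2 : ZMod p) ≠ 0 := by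
    intro h0
    have : ((2 : ℕ) : ZMod p) = 0 := by exact_mod_cast h0
    rw [ZMod.natCast_eq_zero_iff] at this
    exact hp2 ((Nat.prime_dvd_prime_iff_eq hp Nat.prime_two).1 this)
  push_cast at hz
  obtain ⟨u, hu⟩ : ∃ u : ZMod p, u * 2 = 1 := ⟨2⁻¹, inv_mul_cancel₀ h2⟩
  refine ⟨![((c₁ : ZMod p) + z) * u, ((c₁ : ZMod p) - z) * u], ?_⟩
  have e1 : ((c₁ : ZMod p) + z) * u + ((c₁ : ZMod p) - z) * u = c₁ := by
    linear_combination (c₁ : ZMod p) * hu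
  have e2 : (((c₁ : ZMod p) + z) * u) * (((c₁ : ZMod p) - z) * u) = c₂ := by
    linear_combination u ^ 2 * hz + (c₂ : ZMod p) * (2 * u + 1) * hu
  rw [Fin.prod_univ_two, low, sum_range_succ, sum_range_one]
  simp only [Matrix.cons_val_zero, Matrix.cons_val_one]
  have e3 : (1 + C (((c₁ : ZMod p) + z) * u) * X) * (1 + C (((c₁ : ZMod p) - z) * u) * X) =
      1 + C (((c₁ : ZMod p) + z) * u + ((c₁ : ZMod p) - z) * u) * X +
        C ((((c₁ : ZMod p) + z) * u) * (((c₁ : ZMod p) - z) * u)) * X ^ 2 := by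
    simp only [C_mul, C_add]
    ring
  rw [e3, e1, e2]
  simp

/-- `c₂` satisfies the condition on some `P^n`, `n ≥ N` -/
def OccB (N : ℕ) (c₁ c₂ : ℤ) : Prop := ∃ n ≥ N, Sch n c₁ c₂

theorem svB {N : ℕ} {c₁ M : ℤ} {X : ℕ} {T : Finset ℤ}
    (hT : ∀ m ∈ T, M < m ∧ m ≤ M + X ∧ OccB N c₁ m) (y : ℕ) (hy : y + 1 ≤ N) :
    Sv 2 y (T.image fun m => (m - M).toNat) := by
  refine sv_gen (r := 2) (by norm_num) (c := fun j => if j = 0 then 1 else c₁) (by simp) y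
    (fun m hm => (hT m hm).1) ?_
  intro m hm p hp h1 h2 hF
  obtain ⟨n, hn, hS⟩ := (hT m hm).2.2
  exact Or.inr (sch_good hS p hp (by omega) (by omega))

theorem bun_larger : ∃ K : ℝ, 0 < K ∧ ∀ (N : ℕ) (c₁ M : ℤ) (X : ℕ) (T : Finset ℤ), 1 ≤ X →
    (∀ m ∈ T, M < m ∧ m ≤ M + X ∧ OccB N c₁ m) → K * √(X : ℝ) ≤ N →
      (T.card : ℝ) ≤ K * √(X : ℝ) := by
  obtain ⟨K, hK1, hK⟩ := larger 2 (by omega)
  refine ⟨K + 1, by positivity, fun N c₁ M X T hX hT hN => ?_⟩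
  have hX1 : (1 : ℝ) ≤ X := by exact_mod_cast hX
  have hR : 1 ≤ √(X : ℝ) := Real.one_le_sqrt.2 hX1
  have h1 : (1 : ℝ) ≤ N := by nlinarith
  have h1' : 1 ≤ N := by exact_mod_cast h1
  obtain ⟨g1, g2⟩ := img (fun m hm => ⟨(hT m hm).1, (hT m hm).2.1⟩ : ∀ m ∈ T, M < m ∧ m ≤ M + X)
  have h2 := hK X (N - 1) _ hX g1 (svB hT (N - 1) (by omega)) (by
    rw [Nat.cast_sub h1']
    push_cast
    rw [← Real.sqrt_eq_rpow]
    nlinarith)
  rw [g2] at h2
  push_cast at h2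
  rw [← Real.sqrt_eq_rpow] at h2
  nlinarith

theorem bun_large (ε : ℝ) (hε : 0 < ε) : ∃ a K : ℝ, 0 < a ∧ 0 < K ∧
    ∀ (N : ℕ) (c₁ M : ℤ) (X : ℕ) (T : Finset ℤ), 1 ≤ X →
      (∀ m ∈ T, M < m ∧ m ≤ M + X ∧ OccB N c₁ m) → (X : ℝ) ≤ Real.exp ((N : ℝ) ^ a) →
        (T.card : ℝ) ≤ K * (X : ℝ) ^ (1 / 2 + ε) := by
  obtain ⟨a, K, ha, hK0, hK⟩ := large 2 le_rfl ε hε
  obtain ⟨b, hb⟩ : ∃ b : ℝ, b = a / 2 := ⟨_, rfl⟩
  have hb0 : 0 < b := by rw [hb]; positivity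
  refine ⟨b, K + Real.exp ((4 : ℝ) ^ b), hb0, by positivity, fun N c₁ M X T hX hT hXN => ?_⟩
  have hX1 : (1 : ℝ) ≤ X := by exact_mod_cast hX
  have hR : 1 ≤ (X : ℝ) ^ (1 / 2 + ε) := Real.one_le_rpow hX1 (by positivity)
  obtain ⟨g1, g2⟩ := img (fun m hm => ⟨(hT m hm).1, (hT m hm).2.1⟩ : ∀ m ∈ T, M < m ∧ m ≤ M + X)
  rcases lt_or_ge N 4 with h | h
  · have h3 : (T.card : ℝ) ≤ X := by
      rw [← g2]
      have h4 : (T.image fun m => (m - M).toNat) ⊆ Icc 1 X := fun t ht => mem_Icc.2 (g1 t ht)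
      have h5 := card_le_card h4
      rw [Nat.card_Icc, Nat.add_sub_cancel] at h5
      exact_mod_cast h5
    have h4 : (X : ℝ) ≤ Real.exp ((4 : ℝ) ^ b) := by
      refine hXN.trans (Real.exp_le_exp.2 ?_)
      exact Real.rpow_le_rpow (Nat.cast_nonneg _) (by exact_mod_cast h.le) hb0.le
    have h5 := Real.exp_pos ((4 : ℝ) ^ b)
    nlinarith
  · have h8 : (N : ℝ) ^ b ≤ ((N - 1 : ℕ) : ℝ) ^ a := by
      have e1 : (N : ℝ) / 2 ≤ ((N - 1 : ℕ) : ℝ) := by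
        have : N ≤ 2 * (N - 1) := by omega
        have : (N : ℝ) ≤ 2 * ((N - 1 : ℕ) : ℝ) := by exact_mod_cast this
        linarith
      have hN4 : (4 : ℝ) ≤ N := by exact_mod_cast h
      have e2 : (N : ℝ) ^ (1 / 2 : ℝ) ≤ (N : ℝ) / 2 := by
        rw [← Real.sqrt_eq_rpow]
        rw [Real.sqrt_le_left (by linarith)]
        nlinarith
      have e3 := Real.rpow_le_rpow (by positivity) (e2.trans e1) ha.le
      rw [← Real.rpow_mul (by positivity)] at e3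
      have e4 : a / 2 = 1 / 2 * a := by ring
      rw [hb, e4]
      exact e3
    have h9 := hK X (N - 1) _ hX g1 (svB hT (N - 1) (by omega))
      (hXN.trans (Real.exp_le_exp.2 h8))
    rw [g2] at h9
    have h5 := Real.exp_pos ((4 : ℝ) ^ b)
    nlinarith

end Pool.Agent.Q42.FD
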